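import Pool.Agent.H564R3.TS.Main
import Pool.Agent.H564R3.TS.Trop
import Pool.Agent.H564R3.TS.Tsp
import Pool.Agent.H564R3.TS.Num
import Pool.Agent.H564R3.TS.Perm

/-!
The travelling salesman problem by pure dynamic programs with little space.
-/

set_option autoImplicit false

namespace Pool.Agent.Results.MP_e961e9_lc.PureDPTimeSpace

open Finset
open Pool.Agent.H564R3.PW (Instr exec syms)
open Pool.Agent.H564R3.TS

/-- the length of the tour `f` for the distances `d` -/
def len {n : ℕ} (d : Fin (n + 2) × Fin (n + 2) → ℕ) (f : Equiv.Perm (Fin (n + 2))) : ℕ :=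
  ∑ i : Fin (n + 1), d (f i.castSucc, f i.succ)

/-- The (min,+) program `p` writes into register `o` the length of a shortest tour, for all
distances in the natural numbers. -/
def SolvesTSP {n : ℕ} {ρ : Type} [DecidableEq ρ]
    (p : List (Instr (Tropical (WithTop ℝ)) (Fin (n + 2) × Fin (n + 2)) ρ)) (o : ρ) : Prop :=
  ∀ d : Fin (n + 2) × Fin (n + 2) → ℕ, ∃ f ∈ tours n, (∀ g ∈ tours n, len d f ≤ len d g) ∧
    Tropical.untrop (exec (fun x => Tropical.trop (((d x : ℕ) : ℝ) : WithTop ℝ)) p o) =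
      (((len d f : ℕ) : ℝ) : WithTop ℝ)

/-- **Time-space trade-off for the travelling salesman problem.** -/
theorem result (n : ℕ) (ρ : Type) [Fintype ρ] [DecidableEq ρ]
    (p : List (Instr (Tropical (WithTop ℝ)) (Fin (n + 2) × Fin (n + 2)) ρ)) (o : ρ)
    (h : SolvesTSP p o) :
    (4 : ℝ) ^ (n + 1) ≤ (n + 1) * p.length *
      (2 : ℝ) ^ (5 * Real.sqrt ((n + 1) * Real.logb 2 (2 * (n + 2) ^ 2 * Fintype.card ρ)) + 7) := by
  classical
  set F : Finset (Finset (Fin (n + 2) × Fin (n + 2))) := (tours n).image arcs with hF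
  have hFe : ∀ A ∈ F, Exact tsup 2 univ A := by
    intro A hA
    rw [hF, mem_image] at hA
    obtain ⟨f, hf, rfl⟩ := hA
    exact tsp_exact hf
  obtain ⟨g1, g2⟩ := good_trop F (n + 1) (by
      intro A hA
      rw [hF, mem_image] at hA
      obtain ⟨f, hf, rfl⟩ := hA
      exact (tsp_len f (fun _ => 0)).1) p o
    (by
      intro w A hA
      rw [hF, mem_image] at hA
      obtain ⟨g, hg, rfl⟩ := hA
      obtain ⟨f, hf, hmin, hval⟩ := h w
      rw [hval, (tsp_len g w).2]
      exact_mod_cast hmin g hg)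
    (by
      intro w
      obtain ⟨f, hf, hmin, hval⟩ := h w
      refine ⟨arcs f, mem_image_of_mem _ hf, ?_⟩
      rw [hval, (tsp_len f w).2]
      rfl)
  have hT : Cov tsup (syms p o) := by
    intro u hu e
    obtain ⟨A, hA, hAu⟩ := g2 u hu
    obtain ⟨x, hx, hex⟩ := (hFe A hA).cover e (mem_univ e)
    exact ⟨x, hAu x hx, hex⟩
  have hlen : 1 ≤ p.length := by
    rcases p with _ | ⟨a, l⟩
    · obtain ⟨f, hf, _, hval⟩ := h (fun _ => 0)
      exact absurd hval (by
        intro h0
        have h1 : (⊤ : WithTop ℝ) = (((len (fun _ => 0) f : ℕ) : ℝ) : WithTop ℝ) := h0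
        exact WithTop.top_ne_coe h1)
    · simp
  have hcard : n.factorial ≤ F.card := tsp_card n
  have h4 := num_perm (n + 1) (n + 1) (Fintype.card ρ) p.length
    (Fintype.card_pos_iff.2 ⟨o⟩) hlen (by
      intro w H hw hH
      have h5 := main tsup 2 (by norm_num) F hFe p o hT g1 Nat.factorial
        (fun P s G hP hG => tsp_count P s G hP hG) 4 (n + 1 + 1) (by norm_num) (by omega) (n + 1)
        (by simp [Fintype.card_sum]; ring) (fun x s hx hs => fact_ineq (n + 1) x s hx hs)
        w H hw hH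
      have h6 : n.factorial * 4 ^ (n + 1) ≤ n.factorial * ((n + 1) * (2 ^ H * 4 ^ (3 * w) *
          ((H + 1) * (n + 1 + 1) * Fintype.card ρ) ^ ((n + 1) / w))) := by
        calc n.factorial * 4 ^ (n + 1) ≤ F.card * 4 ^ (n + 1) := Nat.mul_le_mul_right _ hcard
          _ ≤ _ := h5
          _ = _ := by rw [Nat.factorial_succ]; ring
      exact Nat.le_of_mul_le_mul_left h6 (Nat.factorial_pos n))
  have e1 : ((n + 1 : ℕ) : ℝ) = (n : ℝ) + 1 := by push_cast; ring
  have e2 : (n : ℝ) + 1 + 1 = n + 2 := by ring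
  rw [e1, e2] at h4
  exact h4

end Pool.Agent.Results.MP_e961e9_lc.PureDPTimeSpace
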